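import Pool.Agent.Helper30.RCU.Defs

/-!
# Project RCU (MP_e3e162_pr), module TR: invariance under relabelling
-/

set_option autoImplicit false

namespace Pool.Agent.Helper74.RCU

open Pool.Agent.Helper30.RCU Finset

open Classical

universe u

variable {V V' ι ι' : Type u} {j : ι ↪ ι'} {τ : V ↪ V'} {φ : ι → Sym2 V} {φ' : ι' → Sym2 V'}

/-- Connections are preserved by relabelling (induction on the edge set). -/
theorem conn_map (hφ : ∀ e, φ' (j e) = (φ e).map τ) (ω : Finset ι) :
    ∀ x y : V, Conn φ' ((ω.map j : Finset ι') : Set ι') (τ x) (τ y) ↔ Conn φ (ω : Set ι) x y := by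
  induction ω using Finset.induction_on with
  | empty =>
    intro x y
    rw [Finset.map_empty]
    constructor
    · intro h
      have h1 : τ x = τ y := eq_of_conn_of_isolated (φ := φ') (ω := ((∅ : Finset ι') : Set ι'))
        (fun e he => by simp at he) h
      rw [τ.injective h1]
      exact Conn.refl _ _
    · intro h
      have h1 : x = y := eq_of_conn_of_isolated (φ := φ) (ω := ((∅ : Finset ι) : Set ι))
        (fun e he => by simp at he) h
      rw [h1]
      exact Conn.refl _ _
  | insert e ω he ih =>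
    intro x y
    obtain ⟨a, b, hab⟩ := exists_mk (φ := φ) e
    have hab' : φ' (j e) = s(τ a, τ b) := by
      rw [hφ, hab, Sym2.map_mk]
    rw [Finset.map_insert, Finset.coe_insert, Finset.coe_insert, conn_insert hab', conn_insert hab,
      ih, ih, ih, ih, ih]

theorem rk_map (hφ : ∀ e, φ' (j e) = (φ e).map τ) (ω : Finset ι) : rk φ' (ω.map j) = rk φ ω := by
  induction ω using Finset.induction_on with
  | empty => rw [Finset.map_empty, rk_empty, rk_empty]
  | insert e ω he ih =>
    obtain ⟨a, b, hab⟩ := exists_mk (φ := φ) e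
    have hab' : φ' (j e) = s(τ a, τ b) := by
      rw [hφ, hab, Sym2.map_mk]
    rw [Finset.map_insert]
    by_cases h : Conn φ (ω : Set ι) a b
    · rw [rk_insert_of_conn hab h, rk_insert_of_conn hab' ((conn_map hφ ω a b).2 h), ih]
    · rw [rk_insert_of_not_conn hab h,
        rk_insert_of_not_conn hab' (fun h2 => h ((conn_map hφ ω a b).1 h2)), ih]

theorem wt_map (hφ : ∀ e, φ' (j e) = (φ e).map τ) {p : ι → ℝ} {p' : ι' → ℝ} (q : ℝ)
    (hp : ∀ e, p' (j e) = p e) (E ω : Finset ι) :
    wt φ' p' q (E.map j) (ω.map j) = wt φ p q E ω := by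
  unfold wt
  rw [rk_map hφ, Finset.prod_map, ← Finset.map_sdiff, Finset.prod_map]
  simp only [hp]

theorem S_map (hφ : ∀ e, φ' (j e) = (φ e).map τ) {p : ι → ℝ} {p' : ι' → ℝ} (q : ℝ)
    (hp : ∀ e, p' (j e) = p e) (E : Finset ι) (f : Finset ι → ℝ) (f' : Finset ι' → ℝ)
    (hf : ∀ ω, f' (ω.map j) = f ω) :
    S φ' p' q (E.map j) f' = S φ p q E f := by
  unfold S
  symm
  refine Finset.sum_bij (fun ω _ => ω.map j) ?_ ?_ ?_ ?_
  · intro ω hω
    exact Finset.mem_powerset.2 (Finset.map_subset_map.2 (Finset.mem_powerset.1 hω))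
  · intro ω _ ω' _ h
    exact Finset.map_injective j h
  · intro ω' hω'
    obtain ⟨ω, hω, h⟩ := Finset.subset_map_iff.1 (Finset.mem_powerset.1 hω')
    exact ⟨ω, Finset.mem_powerset.2 hω, h.symm⟩
  · intro ω _
    rw [wt_map hφ q hp, hf]

theorem hTR : StTR.{u} := by
  intro V V' ι ι' j τ φ φ' p p' q hφ hp E x y
  have hf : ∀ ω : Finset ι, ind φ' (τ x) (τ y) (ω.map j) = ind φ x y ω := by
    intro ω
    unfold ind
    rw [if_congr (conn_map hφ ω x y) rfl rfl]
  unfold ex
  rw [S_map hφ q hp E (ind φ x y) (ind φ' (τ x) (τ y)) hf,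
    S_map hφ q hp E (fun _ => 1) (fun _ => 1) (fun _ => rfl)]

end Pool.Agent.Helper74.RCU
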